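import Mathlib
import Pool.Agent.H3.RN

set_option autoImplicit false

open FirstOrder FirstOrder.Language Cardinal Filter Topology

namespace Pool.Agent.Results.MP_6e9b54_lc.Minimal

universe u v

/-- The topology of pointwise convergence on `End(M)`: induced from the product `M^M` of discrete
spaces. -/
@[reducible] def pw (L : FirstOrder.Language.{u, v}) (M : Type) [L.Structure M] :
    TopologicalSpace (M →[L] M) :=
  TopologicalSpace.induced (fun (f : M →[L] M) (x : M) => f x)
    (@Pi.topologicalSpace M (fun _ => M) (fun _ => ⊥))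

open Pool.Agent.H3.RN

theorem pw_nhds {L : FirstOrder.Language.{u, v}} {M : Type} [L.Structure M] (f : M →[L] M)
    (F : Filter (M →[L] M)) : F ≤ @nhds _ (pw L M) f ↔ ∀ x, ∀ᶠ k in F, k x = f x := by
  letI : TopologicalSpace M := ⊥
  haveI : DiscreteTopology M := ⟨rfl⟩
  rw [pw, nhds_induced, ← map_le_iff_le_comap]
  change Tendsto _ _ _ ↔ _
  rw [tendsto_pi_nhds]
  simp [nhds_discrete]

theorem pw_mem {L : FirstOrder.Language.{u, v}} {M : Type} [L.Structure M] (f : M →[L] M)
    (U : Set (M →[L] M)) (hU : U ∈ @nhds _ (pw L M) f) :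
    ∃ S : Finset M, ∀ k : M →[L] M, (∀ x ∈ S, k x = f x) → k ∈ U := by
  let F : Filter (M →[L] M) := ⨅ x : M, 𝓟 {k | k x = f x}
  have hF : F ≤ @nhds _ (pw L M) f :=
    (pw_nhds f F).2 fun x => (iInf_le (fun x : M => 𝓟 {k : M →[L] M | k x = f x}) x) (by simp)
  obtain ⟨I, hI, hs⟩ := (hasBasis_iInf_principal_finite _).mem_iff.1 (hF hU)
  refine ⟨hI.toFinset, fun k hk => hs ?_⟩
  simp only [Set.mem_iInter]
  exact fun x hx => hk x (by simpa using hx)

theorem result (L : FirstOrder.Language.{u, v}) [Countable L.Symbols] (M : Type) [L.Structure M]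
    [Countable M] [Infinite M]
    (hcat : (ℵ₀ : Cardinal.{0}).Categorical (L.completeTheory M))
    (τ : TopologicalSpace (M →[L] M)) (hT2 : @T2Space _ τ)
    (hmul : @Continuous _ _ (@instTopologicalSpaceProd _ _ τ τ) τ
      (fun p : (M →[L] M) × (M →[L] M) => p.1.comp p.2))
    (hcoarse : ∀ U : Set (M →[L] M), @IsOpen _ τ U → @IsOpen _ (pw L M) U) :
    τ = pw L M := by
  classical
  have hc := cat_of hcat
  have hle : pw L M ≤ τ := hcoarse
  refine le_antisymm ?_ hle
  rw [le_iff_nhds]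
  intro h
  refine le_iff_ultrafilter.2 fun U hU => ?_
  rw [pw_nhds]
  obtain ⟨w, hw⟩ := real hc U (fun (k : M →[L] M) => (Sum.elim id k : M ⊕ M → M))
  obtain ⟨f, hf, -⟩ := hom_of (L := L) (g := fun y => w (Sum.inl y)) (fun n x φ => by
    have := hw (φ.relabel (Sum.inl ∘ x))
    rw [Formula.realize_relabel] at this
    simp only [Formula.realize_relabel] at this
    have h2 : ∀ k : M →[L] M, (Sum.elim id k : M ⊕ M → M) ∘ Sum.inl ∘ x = x := fun k => rfl
    simp only [h2, eventually_const] at this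
    exact this.symm)
  let b : M →[L] M := ⟨fun y => w (Sum.inr y), fun {n} F x => by
      have := (hw ((Term.var (Sum.inr (Structure.funMap F x))).equal
        (Term.func F fun i => Term.var (Sum.inr (x i))))).2 (Eventually.of_forall fun k => by
          simpa [Function.comp_def] using HomClass.map_fun k F x)
      simpa [Function.comp_def] using this, fun {n} r x hr => by
      have := (hw (r.formula fun i => Term.var (Sum.inr (x i)))).2 (Eventually.of_forall fun k => by
          simpa [Function.comp_def] using HomClass.map_rel k r x hr)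
      simpa [Function.comp_def] using this⟩
  have hb : ∀ y, b y = w (Sum.inr y) := fun _ => rfl
  have key : ∀ S : Finset M, ∀ᶠ k in (U : Filter (M →[L] M)), ∃ g : M →[L] M,
      Function.Injective g ∧ ∀ y ∈ S, g y = f y ∧ g (k y) = b y := by
    intro S
    obtain ⟨n, ⟨e⟩⟩ := Finite.exists_equiv_fin (S ⊕ S)
    let σ : Fin n → M ⊕ M := fun i => Sum.map Subtype.val Subtype.val (e.symm i)
    obtain ⟨ψ, h1, h2⟩ := atomic hc (w ∘ σ)
    have h3 := (hw (ψ.relabel σ)).1 (by rwa [Formula.realize_relabel])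
    filter_upwards [h3] with k hk
    rw [Formula.realize_relabel] at hk
    obtain ⟨g, hg, hg2⟩ := homog hc (h2 _ hk).symm
    refine ⟨g, hg, fun y hy => ⟨?_, ?_⟩⟩
    · have := hg2 (e (Sum.inl ⟨y, hy⟩))
      rw [hf]
      simpa [σ] using this
    · have := hg2 (e (Sum.inr ⟨y, hy⟩))
      rw [hb]
      simpa [σ] using this
  have heq : f.comp h = b := by
    letI := τ
    by_contra hne
    obtain ⟨A, B, hA, hB, hfA, hbB, hAB⟩ := t2_separation hne
    have h1 : (fun p : (M →[L] M) × (M →[L] M) => p.1.comp p.2) ⁻¹' A ∈ 𝓝 (f, h) :=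
      hmul.continuousAt.preimage_mem_nhds (hA.mem_nhds hfA)
    obtain ⟨U1, hU1, U2, hU2, hsub⟩ := mem_nhds_prod_iff.1 h1
    obtain ⟨S1, hS1⟩ := pw_mem f U1 (nhds_mono hle hU1)
    obtain ⟨S2, hS2⟩ := pw_mem b B (nhds_mono hle (hB.mem_nhds hbB))
    obtain ⟨k, ⟨g, -, hg⟩, hk⟩ := ((key (S1 ∪ S2)).and (hU hU2)).exists
    have h2 : g.comp k ∈ A := hsub (Set.mk_mem_prod
      (hS1 g fun x hx => (hg x (Finset.mem_union_left _ hx)).1) hk)
    have h3 : g.comp k ∈ B := hS2 _ fun x hx => (hg x (Finset.mem_union_right _ hx)).2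
    exact Set.disjoint_left.1 hAB h2 h3
  intro x
  filter_upwards [key {x, h x}] with k ⟨g, hg, hg2⟩
  apply hg
  rw [(hg2 x (by simp)).2, (hg2 (h x) (by simp)).1, ← heq]
  rfl

end Pool.Agent.Results.MP_6e9b54_lc.Minimal
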